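import Pool.Agent.Run7.h404.TetraMain

namespace Pool.Agent.Results.MP_36f34d_co.RationalTetrahedra

open Run7.h404.Tetra

/-- For every tetrahedron `T` with rational vertices some `n`-point sets contain at least
`c n^(5/3)` similar copies of `T`. -/
theorem result (T : Finset E3) (hT : IsTetrahedron T)
    (hQ : ∀ x ∈ T, ∀ i, ∃ r : ℚ, x i = (r : ℝ)) :
    ∃ c : ℝ, 0 < c ∧ ∀ n : ℕ, 4 ≤ n → ∃ P : Finset E3, P.card = n ∧
      c * (n : ℝ) ^ (5 / 3 : ℝ) ≤ (simCount P T : ℝ) :=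
  main_rat T hT hQ

end Pool.Agent.Results.MP_36f34d_co.RationalTetrahedra
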